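import Pool.Agent.H577R2.BJ.Mem

/-!
# Every problem between `BJIT` and its pointwise one-sided relaxation is `co-NP`-hard
-/

set_option autoImplicit false

namespace Pool.Agent.Y403.BJ

open Finset Pool.Agent.NPC Pool.Agent.NPC.H577R2 Pool.Agent.H577R2 Pool.Agent.H577R2.BJ
  Pool.Agent.H622R2

/-- The pointwise one-sided relaxation of `BJIT`: for every time `y` (separately) there are numbers
`x_i` of the letters with sum `y` such that `y d_i / D - x_i ≤ B`. -/
def Pointwise (I : List ℕ × ℕ × ℕ) : Prop :=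
  I.1 ≠ [] ∧ (∀ x ∈ I.1, 0 < x) ∧ 0 < I.2.2 ∧
    ∀ y ≤ I.1.sum, ∃ x : Fin I.1.length → ℕ, ∑ i, x i = y ∧
      ∀ i, (y : ℚ) * ((I.1.get i : ℚ) / I.1.sum) - x i ≤ (I.2.1 : ℚ) / I.2.2

theorem Pointwise.single {d : List ℕ} {p q : ℕ} (h : Pointwise (d, p, q)) (y : ℕ)
    (hy : y ≤ d.sum) :
    (d.map (fun x : ℕ => ⌈(y : ℚ) * ((x : ℚ) / d.sum) - (p : ℚ) / q⌉)).sum ≤ (y : ℤ) := by
  obtain ⟨-, -, -, h⟩ := h
  obtain ⟨x, hx, hx2⟩ := h y hy
  rw [← sum_get d (fun x : ℕ => ⌈(y : ℚ) * ((x : ℚ) / d.sum) - (p : ℚ) / q⌉)]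
  have h1 : (y : ℤ) = ∑ i, (x i : ℤ) := by
    rw [← Nat.cast_sum]
    exact_mod_cast hx.symm
  rw [h1]
  refine Finset.sum_le_sum fun i _ => ?_
  rw [Int.ceil_le]
  have h2 : (y : ℚ) * (((d.get i : ℕ) : ℚ) / ((d.sum : ℕ) : ℚ)) - (x i : ℚ) ≤ (p : ℚ) / q := hx2 i
  rw [Int.cast_natCast]
  linarith

theorem bjit_of_pointwise (d : List ℕ) (p q d0 : ℕ) (hpq : p < q)
    (hd0 : ∀ x ∈ d, d0 ≤ x) (hM : 2 * (q - p) * (d.filter (fun x => x ≠ d0)).length ≤ q)
    (h : Pointwise (d, p, q)) : BJIT (d, p, q) :=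
  (bjit_iff d p q d0 h.1 h.2.1 hpq hd0 hM).2 fun y hy => h.single y hy

/-- On the instances of the reduction the relaxation does not change the answer. -/
theorem inst_pointwise {m N : ℕ} {q e : ℕ → ℕ} {its : List Item} (H : Modl m N q e)
    (G : GoodL m N its)
    (hfew : 4 * ((its.filter (fun it => it ≠ (2, [], 0))).length + 1) ≤ m)
    (h : Pointwise (dL q N its, pB m (q N), qB m (q N))) :
    BJIT (dL q N its, pB m (q N), qB m (q N)) := by
  have hm2 := H.m2
  have hbig := H.big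
  have hsum := sum_val_le H G
  have hPN := H.PPpos (le_refl N)
  have hge : ∀ x ∈ dL q N its, PP q N N ≤ x := by
    intro x hx
    unfold dL at hx
    rw [List.mem_append, List.mem_map, List.mem_singleton] at hx
    rcases hx with ⟨it, hit, rfl⟩ | rfl
    · exact val_ge H (G.good it hit)
    · omega
  have hpq : pB m (q N) < qB m (q N) := by
    have := pq_sub H
    have := H.qposN (le_refl N)
    omega
  have hfilter : ((dL q N its).filter (fun x => x ≠ PP q N N)).length ≤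
      (its.filter (fun it => it ≠ (2, [], 0))).length + 1 := by
    unfold dL
    rw [List.filter_append, List.length_append]
    refine add_le_add ?_ ?_
    · rw [List.filter_map, List.length_map]
      refine (List.Sublist.length_le ?_)
      refine List.monotone_filter_right its ?_
      intro it hit
      have h1 : BJ.val q N it ≠ PP q N N := of_decide_eq_true hit
      refine decide_eq_true ?_
      rintro rfl
      apply h1
      unfold BJ.val
      simp
      omega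
    · exact List.length_filter_le _ _
  refine bjit_of_pointwise _ _ _ (PP q N N) hpq hge ?_ h
  rw [pq_sub H]
  have h1 : 2 * (2 * q N + (3 * m - 2)) * ((dL q N its).filter
      (fun x => x ≠ PP q N N)).length ≤ 2 * (2 * q N + (3 * m - 2)) *
      ((its.filter (fun it => it ≠ (2, [], 0))).length + 1) := Nat.mul_le_mul_left _ hfilter
  have h2 : 2 * q N + (3 * m - 2) ≤ 4 * q N := by
    have := Nat.sub_le (3 * m) 2
    nlinarith
  have h3 : 2 * (2 * q N + (3 * m - 2)) *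
      ((its.filter (fun it => it ≠ (2, [], 0))).length + 1) ≤ 2 * (4 * q N) *
      ((its.filter (fun it => it ≠ (2, [], 0))).length + 1) :=
    Nat.mul_le_mul_right _ (Nat.mul_le_mul_left _ h2)
  have h4 : 2 * (4 * q N) * ((its.filter (fun it => it ≠ (2, [], 0))).length + 1) =
      2 * q N * (4 * ((its.filter (fun it => it ≠ (2, [], 0))).length + 1)) := by ring
  have h5 : 2 * q N * (4 * ((its.filter (fun it => it ≠ (2, [], 0))).length + 1)) ≤
      2 * q N * m := Nat.mul_le_mul_left _ hfew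
  have h6 : 2 * q N * m = qB m (q N) := by
    unfold qB
    ring
  omega

/-- Every problem between `BJIT` and the pointwise one-sided relaxation is `co-NP`-hard. -/
theorem between_hard {P : List ℕ × ℕ × ℕ → Prop} (h1 : ∀ I, BJIT I → P I)
    (h2 : ∀ I, P I → Pointwise I) : CoNPHardP P := by
  refine HardI.toCoNPHardP ?_
  refine (HardPr.trans (Pr' := fun _ => True) hardPr_small poly_instB (fun _ _ => trivial)
    fun φ hφ => ?_).toHardI
  rw [instB_correct φ hφ, not_iff_not]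
  exact ⟨h1 _, fun h => inst_pointwise (qM_modl φ) (itB_good hφ) (itB_few hφ) (h2 _ h)⟩

/-- Every such problem is in `NP` only if `NP = co-NP`. -/
theorem between_inNP {P : List ℕ × ℕ × ℕ → Prop} (h1 : ∀ I, BJIT I → P I)
    (h2 : ∀ I, P I → Pointwise I) (h : InNPP P) : ∀ L : Set (List Bool), InNP L ↔ InCoNP L := by
  have key : ∀ L : Set (List Bool), InCoNP L → InNP L := fun L hL =>
    Pool.Agent.H622R2.InNP.of_reduces (between_hard h1 h2 L hL) h
  intro L
  refine ⟨fun hL => ?_, key L⟩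
  have h3 : InCoNP Lᶜ := by
    unfold InCoNP
    rwa [compl_compl]
  exact key Lᶜ h3

/-- The variant of `BJIT` with possibly different tolerances: is there a word all of whose
deviations `x_{ik} - k d_i / D` lie in the set `T`? -/
def Tol (T : List ℕ × ℕ × ℕ → Set ℚ) (I : List ℕ × ℕ × ℕ) : Prop :=
  I.1 ≠ [] ∧ (∀ x ∈ I.1, 0 < x) ∧ 0 < I.2.2 ∧
    ∃ S : Fin I.1.sum → Fin I.1.length,
      (∀ i, occ S i I.1.sum = I.1.get i) ∧
      ∀ i, ∀ k : ℕ, 1 ≤ k → k ≤ I.1.sum →
        (occ S i k : ℚ) - k * ((I.1.get i : ℚ) / I.1.sum) ∈ T I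

theorem tol_of_bjit {T : List ℕ × ℕ × ℕ → Set ℚ}
    (hT : ∀ I : List ℕ × ℕ × ℕ, ∀ x : ℚ, |x| ≤ (I.2.1 : ℚ) / I.2.2 → x ∈ T I) (I : List ℕ × ℕ × ℕ)
    (h : BJIT I) : Tol T I := by
  obtain ⟨h1, h2, h3, S, h4, h5⟩ := h
  exact ⟨h1, h2, h3, S, h4, fun i k hk hk' => hT I _ (h5 i k hk hk')⟩

theorem pointwise_of_late {T : List ℕ × ℕ × ℕ → Set ℚ}
    (hT : ∀ I : List ℕ × ℕ × ℕ, ∀ x ∈ T I, -((I.2.1 : ℚ) / I.2.2) ≤ x) (I : List ℕ × ℕ × ℕ)
    (h : Tol T I) : Pointwise I := by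
  obtain ⟨h1, h2, h3, S, h4, h5⟩ := h
  refine ⟨h1, h2, h3, fun y hy => ⟨fun i => occ S i y, sum_occ S hy, fun i => ?_⟩⟩
  rcases Nat.eq_zero_or_pos y with rfl | h0
  · have : (0 : ℚ) ≤ (I.2.1 : ℚ) / I.2.2 := by positivity
    have h6 : (0 : ℚ) ≤ occ S i 0 := by positivity
    simp only [Nat.cast_zero, zero_mul]
    linarith
  · have := hT I _ (h5 i y h0 hy)
    linarith

theorem pointwise_of_early {T : List ℕ × ℕ × ℕ → Set ℚ}
    (hT : ∀ I : List ℕ × ℕ × ℕ, ∀ x ∈ T I, x ≤ (I.2.1 : ℚ) / I.2.2) (I : List ℕ × ℕ × ℕ)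
    (h : Tol T I) : Pointwise I := by
  obtain ⟨h1, h2, h3, S, h4, h5⟩ := h
  refine ⟨h1, h2, h3, fun y hy => ?_⟩
  have hmono : ∀ i, occ S i (I.1.sum - y) ≤ I.1.get i := by
    intro i
    rw [← h4 i]
    unfold occ
    refine Finset.card_le_card fun l hl => ?_
    rw [Finset.mem_filter] at hl ⊢
    exact ⟨hl.1, l.2, hl.2.2⟩
  have hDpos : 0 < I.1.sum := by
    obtain ⟨a, l, hal⟩ := List.exists_cons_of_ne_nil h1
    have := h2 a (by rw [hal]; exact List.mem_cons_self)
    rw [hal, List.sum_cons]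
    omega
  have hDq : (0 : ℚ) < (I.1.sum : ℚ) := by exact_mod_cast hDpos
  refine ⟨fun i => I.1.get i - occ S i (I.1.sum - y), ?_, fun i => ?_⟩
  · have e1 : ∑ i, (I.1.get i - occ S i (I.1.sum - y)) + ∑ i, occ S i (I.1.sum - y) =
        ∑ i, I.1.get i := by
      rw [← Finset.sum_add_distrib]
      exact Finset.sum_congr rfl fun i _ => Nat.sub_add_cancel (hmono i)
    rw [sum_occ S (Nat.sub_le _ _), sum_get_nat] at e1
    show ∑ i, (I.1.get i - occ S i (I.1.sum - y)) = y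
    omega
  · rw [Nat.cast_sub (hmono i)]
    rcases Nat.eq_zero_or_pos (I.1.sum - y) with h0 | h0
    · have hyD : y = I.1.sum := by omega
      have e2 : occ S i (I.1.sum - y) = 0 := by
        rw [h0]
        simp [occ]
      rw [e2, hyD, mul_div_cancel₀ _ hDq.ne']
      have : (0 : ℚ) ≤ (I.2.1 : ℚ) / I.2.2 := by positivity
      simp only [Nat.cast_zero, sub_zero, sub_self]
      exact this
    · have h6 := hT I _ (h5 i (I.1.sum - y) h0 (Nat.sub_le _ _))
      rw [Nat.cast_sub hy] at h6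
      have e3 : ((I.1.sum : ℚ) - y) * ((I.1.get i : ℚ) / I.1.sum) =
          I.1.get i - (y : ℚ) * ((I.1.get i : ℚ) / I.1.sum) := by
        rw [sub_mul, mul_div_cancel₀ _ hDq.ne']
      rw [e3] at h6
      linarith

end Pool.Agent.Y403.BJ
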